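import Pool.Agent.H72.CH.Targets2

/-!
KMN: two pairs.
-/

set_option autoImplicit false
set_option linter.unusedVariables false

namespace Pool.Agent.H51.CH.KMN

open Pool.Agent.H68.BP Pool.Agent.H58.SF
open Pool.Agent.H57.EQ (Cx)
open Pool.Agent.H72.CH
open Function

variable {V : Type} {ρ σ : Sig}

/-- the common level -/
def clv (lv : V → V → ℕ) (q : (Fin 2 → V) × (Fin 2 → V)) : ℕ :=
  min (lv (q.1 0) (q.2 0)) (lv (q.1 1) (q.2 1))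

/-- `f` separates the pair `q`. -/
def Sp (lv : V → V → ℕ) (f : (Fin 2 → V) → V) (q : (Fin 2 → V) × (Fin 2 → V)) : Prop :=
  lv (f q.1) (f q.2) = clv lv q

/-- No polymorphism separates all pairs in `Q`. -/
def Bad (𝔸 : Str σ V) (lv : V → V → ℕ) (Q : Finset ((Fin 2 → V) × (Fin 2 → V))) : Prop :=
  ∀ f : (Fin 2 → V) → V, IsPoly 𝔸 𝔸 f → ∃ q ∈ Q, ¬ Sp lv f q

theorem poly_proj (𝔸 : Str σ V) (i : Fin 2) : IsPoly 𝔸 𝔸 (fun z : Fin 2 → V => z i) :=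
  fun l x hx => hx i

theorem poly_comp {𝔸 : Str σ V} {h f g : (Fin 2 → V) → V} (hh : IsPoly 𝔸 𝔸 h)
    (hf : IsPoly 𝔸 𝔸 f) (hg : IsPoly 𝔸 𝔸 g) : IsPoly 𝔸 𝔸 (fun z => h ![f z, g z]) := by
  intro l x hx
  have h1 := hh l ![fun k => f (fun i => x i k), fun k => g (fun i => x i k)] (by
    intro i
    fin_cases i
    · exact hf l x hx
    · exact hg l x hx)
  have h2 : (fun k => h (fun i => (![fun k => f (fun i => x i k), fun k => g (fun i => x i k)] :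
      Fin 2 → Fin (σ.ar l) → V) i k)) =
      fun k => h ![f (fun i => x i k), g (fun i => x i k)] := by
    funext k
    congr 1
    funext i
    fin_cases i <;> rfl
  rw [h2] at h1
  exact h1

theorem poly_hom {𝔸 : Str σ V} {e : V → V} {f : (Fin 2 → V) → V} (he : IsHom 𝔸 𝔸 e)
    (hf : IsPoly 𝔸 𝔸 f) : IsPoly 𝔸 𝔸 (fun z => e (f z)) :=
  fun l x hx => he l _ (hf l x hx)

theorem epc2 {𝔸 : Str σ V} {m : ℕ} {lv : V → V → ℕ} (hE : EPC 𝔸 lv)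
    {h : (Fin 2 → V) → V} (hh : IsPoly 𝔸 𝔸 h) {j : ℕ} {x y x' y' : V} (h1 : j ≤ lv x x')
    (h2 : j ≤ lv y y') : j ≤ lv (h ![x, y]) (h ![x', y']) := by
  refine hE (Fin 2) h hh j ![x, y] ![x', y'] ?_
  intro p
  fin_cases p
  · exact h1
  · exact h2

theorem epc_clv {𝔸 : Str σ V} {lv : V → V → ℕ} (hE : EPC 𝔸 lv)
    {h : (Fin 2 → V) → V} (hh : IsPoly 𝔸 𝔸 h) (q : (Fin 2 → V) × (Fin 2 → V)) :
    clv lv q ≤ lv (h q.1) (h q.2) := by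
  refine hE (Fin 2) h hh (clv lv q) q.1 q.2 ?_
  intro p
  fin_cases p
  · exact min_le_left _ _
  · exact min_le_right _ _

theorem exists_bad {𝔸 : Str σ V} {lv : V → V → ℕ} (h : ¬ InjL 𝔸 lv) : ∃ Q, Bad 𝔸 lv Q := by
  classical
  unfold InjL at h
  push Not at h
  obtain ⟨W, hW, G, hG⟩ := h
  have : Fintype W := Fintype.ofFinite W
  refine ⟨(Finset.univ : Finset (W × W)).image
    (fun p => ((fun i => G i p.1, fun i => G i p.2) : (Fin 2 → V) × (Fin 2 → V))), ?_⟩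
  intro f hf
  obtain ⟨u, w, huw⟩ := hG (fun w => f (fun i => G i w)) (fun l z hz => hf l (fun i a => G i (z a)) hz)
  exact ⟨_, Finset.mem_image.2 ⟨(u, w), Finset.mem_univ _, rfl⟩, huw⟩

theorem pf_KMN : T_KMN := by
  intro V ρ σ 𝔹 m lv 𝔸 hV hE hN hR hI
  classical
  obtain ⟨e, he1, he2, he3⟩ := hR
  obtain ⟨Q, hQ, hmin⟩ := WellFounded.has_min
    (Finset.isWellFounded_ssubset (α := (Fin 2 → V) × (Fin 2 → V))).wf {Q | Bad 𝔸 lv Q}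
    (exists_bad hI)
  have hQ : Bad 𝔸 lv Q := hQ
  -- maps which separate all but one pair
  have her : ∀ q ∈ Q, ∃ f : (Fin 2 → V) → V, IsPoly 𝔸 𝔸 f ∧ (∀ q' ∈ Q, q' ≠ q → Sp lv f q') ∧
      clv lv q + 1 ≤ lv (f q.1) (f q.2) ∧ ∀ x y, Rgd 𝔸 (f x) (f y) := by
    intro q hq
    have h1 : ¬ Bad 𝔸 lv (Q.erase q) := fun h2 => hmin _ h2 (Finset.erase_ssubset hq)
    unfold Bad at h1
    push Not at h1
    obtain ⟨f, hf, hf2⟩ := h1
    have hf2' : ∀ q' ∈ Q, q' ≠ q → Sp lv (fun z => e (f z)) q' := by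
      intro q' hq' hne
      have h3 := hf2 q' (Finset.mem_erase.2 ⟨hne, hq'⟩)
      unfold Sp at h3 ⊢
      rw [he2]
      exact h3
    refine ⟨fun z => e (f z), poly_hom he1 hf, hf2', ?_, fun x y => he3 _ _⟩
    obtain ⟨q'', hq'', hns⟩ := hQ _ (poly_hom he1 hf)
    have h4 : q'' = q := by
      by_contra hne
      exact hns (hf2' q'' hq'' hne)
    rw [h4] at hns
    have h5 := epc_clv hE (poly_hom he1 hf) q
    have h6 : lv (e (f q.1)) (e (f q.2)) ≠ clv lv q := hns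
    simp only at h5 ⊢
    omega
  -- the levels of the pairs
  have hlt : ∀ q ∈ Q, clv lv q < m := by
    intro q hq
    obtain ⟨f, -, -, hf, -⟩ := her q hq
    have h1 := hV.lev.pl.le (f q.1) (f q.2)
    omega
  -- two pairs
  obtain ⟨q₁, hq₁, q₂, hq₂, hne⟩ : ∃ q₁ ∈ Q, ∃ q₂ ∈ Q, q₁ ≠ q₂ := by
    obtain ⟨q₁, hq₁, -⟩ := hQ _ (poly_proj 𝔸 0)
    obtain ⟨i, hi⟩ : ∃ i : Fin 2, lv (q₁.1 i) (q₁.2 i) = clv lv q₁ := by
      unfold clv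
      rcases le_total (lv (q₁.1 0) (q₁.2 0)) (lv (q₁.1 1) (q₁.2 1)) with h | h
      · exact ⟨0, (min_eq_left h).symm⟩
      · exact ⟨1, (min_eq_right h).symm⟩
    obtain ⟨q₂, hq₂, hns⟩ := hQ _ (poly_proj 𝔸 i)
    refine ⟨q₁, hq₁, q₂, hq₂, ?_⟩
    rintro rfl
    exact hns hi
  obtain ⟨F₂, hF₂, hF₂s, hF₂n, hF₂r⟩ := her q₁ hq₁
  obtain ⟨F₁, hF₁, hF₁s, hF₁n, hF₁r⟩ := her q₂ hq₂
  -- the alternative
  have hst : ∀ h : (Fin 2 → V) → V, IsPoly 𝔸 𝔸 h →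
      clv lv q₁ + 1 ≤ lv (h ![F₁ q₁.1, F₂ q₁.1]) (h ![F₁ q₁.2, F₂ q₁.2]) ∨
      clv lv q₂ + 1 ≤ lv (h ![F₁ q₂.1, F₂ q₂.1]) (h ![F₁ q₂.2, F₂ q₂.2]) := by
    intro h hh
    have hH := poly_comp hh hF₁ hF₂
    obtain ⟨q, hq, hns⟩ := hQ _ hH
    have h1 := epc_clv hE hH q
    have h2 : lv (h ![F₁ q.1, F₂ q.1]) (h ![F₁ q.2, F₂ q.2]) ≠ clv lv q := hns
    by_cases e1 : q = q₁
    · left
      rw [e1] at h1 h2
      omega
    by_cases e2 : q = q₂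
    · right
      rw [e2] at h1 h2
      omega
    exfalso
    refine h2 (hN (Fin 2) h hh (clv lv q) (hlt q hq) ![F₁ q.1, F₂ q.1] ![F₁ q.2, F₂ q.2] ?_)
    intro p
    fin_cases p
    · exact ⟨hF₁s q hq e2, hF₁r _ _⟩
    · exact ⟨hF₂s q hq e1, hF₂r _ _⟩
  have hs := hV.lev.pl.sym
  have hself := hV.lev.pl.self
  have hult : ∀ (j : ℕ) (x y z : V), j ≤ lv x y → j ≤ lv y z → j ≤ lv x z :=
    fun j x y z h1 h2 => le_trans (le_min h1 h2) (hV.lev.pl.ult x y z)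
  have hm₁ := hlt q₁ hq₁
  have hm₂ := hlt q₂ hq₂
  have hab : lv (F₁ q₁.1) (F₁ q₁.2) = clv lv q₁ := hF₁s q₁ hq₁ hne
  have hcd : lv (F₂ q₂.1) (F₂ q₂.2) = clv lv q₂ := hF₂s q₂ hq₂ (Ne.symm hne)
  have hj : ∀ h : (Fin 2 → V) → V, IsPoly 𝔸 𝔸 h →
      clv lv q₂ + 1 ≤ lv (h ![F₁ q₂.1, F₂ q₂.1]) (h ![F₁ q₂.2, F₂ q₂.2]) →
      clv lv q₂ + 1 ≤ lv (h ![F₁ q₂.1, F₂ q₂.1]) (h ![F₁ q₂.1, F₂ q₂.2]) := by
    intro h hh h1
    refine hult _ _ _ _ h1 (epc2 (m := m) hE hh ?_ ?_)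
    · rw [hs]
      exact hF₁n
    · rw [hself]
      exact hm₂
  by_cases hac : lv (F₁ q₁.1) (F₁ q₂.1) < clv lv q₁ + 1
  · refine ⟨clv lv q₁ + 1, clv lv q₂ + 1, F₁ q₁.1, F₁ q₁.2, F₁ q₂.1, F₂ q₁.1, F₂ q₂.1, F₂ q₂.2,
      hm₁, hm₂, by rw [hab], hF₁r _ _, by rw [hcd], hF₂r _ _, hac, ?_⟩
    intro h hh
    rcases hst h hh with h1 | h1
    · left
      refine hult _ _ _ _ h1 (epc2 (m := m) hE hh ?_ ?_)
      · rw [hself]
        exact hm₁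
      · rw [hs]
        exact hF₂n
    · right
      exact hj h hh h1
  · have hbc : lv (F₁ q₁.2) (F₁ q₂.1) < clv lv q₁ + 1 := by
      by_contra hcon
      have h1 := hult (clv lv q₁ + 1) (F₁ q₁.1) (F₁ q₂.1) (F₁ q₁.2) (not_lt.1 hac) (by
        rw [hs]
        exact not_lt.1 hcon)
      rw [hab] at h1
      omega
    refine ⟨clv lv q₁ + 1, clv lv q₂ + 1, F₁ q₁.2, F₁ q₁.1, F₁ q₂.1, F₂ q₁.2, F₂ q₂.1, F₂ q₂.2,
      hm₁, hm₂, by rw [hs, hab], hF₁r _ _, by rw [hcd], hF₂r _ _, hbc, ?_⟩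
    intro h hh
    rcases hst h hh with h1 | h1
    · left
      rw [hs] at h1
      refine hult _ _ _ _ h1 (epc2 (m := m) hE hh ?_ ?_)
      · rw [hself]
        exact hm₁
      · exact hF₂n
    · right
      exact hj h hh h1

end Pool.Agent.H51.CH.KMN
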