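import Pool.Agent.H32.CH.Targets

/-!
# CH board, row OG: from cycles to closed walks of length 3, 5, 7
-/

namespace Pool.Agent.H51.CH

open Finset
open scoped Classical
open Pool.Agent.H32.CH

theorem pf_OG : T_OG := by
  intro V _ G hcyc
  have tf : TF G := by
    intro a b c hab hbc hca
    have nab := hab.ne
    have nbc := hbc.ne
    have nca := hca.ne
    have h := hcyc a (SimpleGraph.Walk.cons hab (.cons hbc (.cons hca .nil)))
      (by
        rw [SimpleGraph.Walk.cons_isCycle_iff]
        simp only [SimpleGraph.Walk.cons_isPath_iff, SimpleGraph.Walk.support_cons,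
          SimpleGraph.Walk.support_nil, SimpleGraph.Walk.edges_cons, SimpleGraph.Walk.edges_nil,
          List.mem_cons, List.not_mem_nil, Sym2.eq_iff, SimpleGraph.Walk.IsPath.nil]
        grind)
      (by simp only [SimpleGraph.Walk.length_cons, SimpleGraph.Walk.length_nil]; decide)
    simp only [SimpleGraph.Walk.length_cons, SimpleGraph.Walk.length_nil] at h
    omega
  have np5 : NP5 G := by
    intro a b c d e hab hbc hcd hde hea
    have nab := hab.ne
    have nbc := hbc.ne
    have ncd := hcd.ne
    have nde := hde.ne
    have nea := hea.ne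
    have nac : a ≠ c := by
      rintro rfl
      exact tf a d e hcd hde hea
    have nad : a ≠ d := by
      rintro rfl
      exact tf a b c hab hbc hcd
    have nbd : b ≠ d := by
      rintro rfl
      exact tf a b e hab hde hea
    have nbe : b ≠ e := by
      rintro rfl
      exact tf b c d hbc hcd hde
    have nce : c ≠ e := by
      rintro rfl
      exact tf c a b hea hab hbc
    have h := hcyc a (SimpleGraph.Walk.cons hab (.cons hbc (.cons hcd (.cons hde (.cons hea .nil)))))
      (by
        rw [SimpleGraph.Walk.cons_isCycle_iff]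
        simp only [SimpleGraph.Walk.cons_isPath_iff, SimpleGraph.Walk.support_cons,
          SimpleGraph.Walk.support_nil, SimpleGraph.Walk.edges_cons, SimpleGraph.Walk.edges_nil,
          List.mem_cons, List.not_mem_nil, Sym2.eq_iff, SimpleGraph.Walk.IsPath.nil]
        grind)
      (by simp only [SimpleGraph.Walk.length_cons, SimpleGraph.Walk.length_nil]; decide)
    simp only [SimpleGraph.Walk.length_cons, SimpleGraph.Walk.length_nil] at h
    omega
  have k2 : ∀ a b c d e f g, G.Adj a b → G.Adj b c → G.Adj c d → G.Adj d e → G.Adj e f →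
      G.Adj f g → G.Adj g a → a ≠ c := by
    rintro a b c d e f g _ _ hcd hde hef hfg hga rfl
    exact np5 a d e f g hcd hde hef hfg hga
  have k3 : ∀ a b c d, G.Adj a b → G.Adj b c → G.Adj c d → a ≠ d := by
    rintro a b c d hab hbc hcd rfl
    exact tf a b c hab hbc hcd
  refine ⟨tf, np5, ?_⟩
  intro a b c d e f g hab hbc hcd hde hef hfg hga
  have nab := hab.ne
  have nbc := hbc.ne
  have ncd := hcd.ne
  have nde := hde.ne
  have nef := hef.ne
  have nfg := hfg.ne
  have nga := hga.ne
  have nac := k2 a b c d e f g hab hbc hcd hde hef hfg hga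
  have nbd := k2 b c d e f g a hbc hcd hde hef hfg hga hab
  have nce := k2 c d e f g a b hcd hde hef hfg hga hab hbc
  have ndf := k2 d e f g a b c hde hef hfg hga hab hbc hcd
  have neg := k2 e f g a b c d hef hfg hga hab hbc hcd hde
  have nfa := k2 f g a b c d e hfg hga hab hbc hcd hde hef
  have ngb := k2 g a b c d e f hga hab hbc hcd hde hef hfg
  have nad := k3 a b c d hab hbc hcd
  have nbe := k3 b c d e hbc hcd hde
  have ncf := k3 c d e f hcd hde hef
  have ndg := k3 d e f g hde hef hfg
  have nea := k3 e f g a hef hfg hga
  have nfb := k3 f g a b hfg hga hab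
  have ngc := k3 g a b c hga hab hbc
  have h := hcyc a (SimpleGraph.Walk.cons hab (.cons hbc (.cons hcd (.cons hde (.cons hef
      (.cons hfg (.cons hga .nil)))))))
    (by
      rw [SimpleGraph.Walk.cons_isCycle_iff]
      simp only [SimpleGraph.Walk.cons_isPath_iff, SimpleGraph.Walk.support_cons,
        SimpleGraph.Walk.support_nil, SimpleGraph.Walk.edges_cons, SimpleGraph.Walk.edges_nil,
        List.mem_cons, List.not_mem_nil, Sym2.eq_iff, SimpleGraph.Walk.IsPath.nil]
      grind)
    (by simp only [SimpleGraph.Walk.length_cons, SimpleGraph.Walk.length_nil]; decide)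
  simp only [SimpleGraph.Walk.length_cons, SimpleGraph.Walk.length_nil] at h
  omega

end Pool.Agent.H51.CH
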