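import Pool.Agent.H72.CH.Targets
import Pool.Agent.H44.FB.Basics

/-!
PTH: paths with given types.
-/

set_option autoImplicit false
set_option linter.unusedVariables false

namespace Pool.Agent.H51.CH

open Pool.Agent.H68.BP Pool.Agent.H58.SF Pool.Agent.H53.NR
open Pool.Agent.H57.AR (tp ty Ty)
open Pool.Agent.H57.LH (Hmg)
open Pool.Agent.H44.KR (HB Amg Tyi TpOn Rz LcN)
open Pool.Agent.H44.FB (tpo_comp tpo_of_tp comp_of_tp)
open Pool.Agent.H72.CH
open Function

section cycle

variable {n m : ℕ}

/-- the relation which connects the ends of the edges with the property `P` -/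
abbrev Cn (P : Fin (n + 2) → Prop) (x y : Fin (n + 2)) : Prop :=
  Relation.EqvGen (fun a b => P a ∧ b = a + 1) x y

theorem cn_mono {P Q : Fin (n + 2) → Prop} (h : ∀ a, P a → Q a) {x y : Fin (n + 2)}
    (hxy : Cn P x y) : Cn Q x y :=
  Relation.EqvGen.mono (fun a b hab => ⟨h a hab.1, hab.2⟩) _ _ hxy

theorem val_succ {x : Fin (n + 2)} (h : x.val < n + 1) : (x + 1).val = x.val + 1 := by
  rw [Fin.val_add_one, if_neg]
  intro h1
  rw [h1] at h
  simp at h

theorem last_succ {x : Fin (n + 2)} (h : x.val = n + 1) : x + 1 = 0 := by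
  have h1 : x = Fin.last (n + 1) := Fin.ext h
  rw [h1, Fin.last_add_one]

/-- a cycle without an edge is connected -/
theorem conn (k : Fin (n + 2)) (hk : k.val < n + 1) (x y : Fin (n + 2)) :
    Cn (fun a => a ≠ k) x y := by
  have h1 : ∀ t : ℕ, ∀ x : Fin (n + 2), x.val = t → t ≤ k.val → Cn (fun a => a ≠ k) x 0 := by
    intro t
    induction t with
    | zero =>
      intro x hx _
      have : x = 0 := Fin.ext hx
      rw [this]
      exact Relation.EqvGen.refl _
    | succ t ih =>
      intro x hx hxk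
      have hy : t < n + 2 := by
        have := x.2
        omega
      have h2 := ih ⟨t, hy⟩ rfl (by omega)
      refine Relation.EqvGen.trans _ _ _ (Relation.EqvGen.symm _ _ (Relation.EqvGen.rel _ _ ?_)) h2
      refine ⟨?_, ?_⟩
      · intro h3
        have := congrArg Fin.val h3
        simp only at this
        omega
      · apply Fin.ext
        have h4 : (⟨t, hy⟩ : Fin (n + 2)).val < n + 1 := by
          simp only
          omega
        rw [val_succ h4]
        exact hx
  have h2 : ∀ t : ℕ, ∀ x : Fin (n + 2), x.val + t = n + 1 → k.val < x.val →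
      Cn (fun a => a ≠ k) x 0 := by
    intro t
    induction t with
    | zero =>
      intro x hx hkx
      refine Relation.EqvGen.rel _ _ ⟨?_, (last_succ hx).symm⟩
      intro h3
      rw [h3] at hkx
      omega
    | succ t ih =>
      intro x hx hkx
      have h4 : x.val < n + 1 := by omega
      have h5 := val_succ h4
      refine Relation.EqvGen.trans _ _ _ (Relation.EqvGen.rel x (x + 1) ⟨?_, rfl⟩)
        (ih (x + 1) (by omega) (by omega))
      intro h3
      rw [h3] at hkx
      omega
  have h3 : ∀ x, Cn (fun a => a ≠ k) x 0 := by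
    intro x
    by_cases h : x.val ≤ k.val
    · exact h1 _ x rfl h
    · have := x.2
      exact h2 (n + 1 - x.val) x (by omega) (by omega)
  exact Relation.EqvGen.trans _ _ _ (h3 x) (Relation.EqvGen.symm _ _ (h3 y))

/-- two edges separate a cycle -/
theorem sepa {k k' : Fin (n + 2)} (h : k ≠ k') : ¬ Cn (fun a => a ≠ k ∧ a ≠ k') k (k + 1) := by
  have hv : k.val ≠ k'.val := fun h1 => h (Fin.ext h1)
  -- the arc
  have hinv : ∀ x y, Cn (fun a => a ≠ k ∧ a ≠ k') x y →
      ((min k.val k'.val < x.val ∧ x.val ≤ max k.val k'.val) ↔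
        (min k.val k'.val < y.val ∧ y.val ≤ max k.val k'.val)) := by
    intro x y hxy
    induction hxy with
    | rel x y h1 =>
      obtain ⟨⟨h2, h3⟩, rfl⟩ := h1
      have h2' : x.val ≠ k.val := fun h1 => h2 (Fin.ext h1)
      have h3' : x.val ≠ k'.val := fun h1 => h3 (Fin.ext h1)
      have hk := k.2
      have hk' := k'.2
      have hx := x.2
      by_cases h4 : x.val < n + 1
      · rw [val_succ h4]
        omega
      · have h5 : x.val = n + 1 := by omega
        rw [last_succ h5]
        simp only [Fin.val_zero]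
        omega
    | refl x => exact Iff.rfl
    | symm x y _ ih => exact ih.symm
    | trans x y z _ _ ih1 ih2 => exact ih1.trans ih2
  intro hc
  have h1 := hinv _ _ hc
  have hk := k.2
  have hk' := k'.2
  by_cases h4 : k.val < n + 1
  · rw [val_succ h4] at h1
    omega
  · have h5 : k.val = n + 1 := by omega
    rw [last_succ h5] at h1
    simp only [Fin.val_zero] at h1
    omega

open Classical in
/-- the level of the best path -/
noncomputable def lm (m : ℕ) (lev : Fin (n + 2) → ℕ) (x y : Fin (n + 2)) : ℕ :=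
  ((Finset.range (m + 1)).filter (fun j => Cn (fun a => j ≤ lev a) x y)).sup id

theorem lm_le (lev : Fin (n + 2) → ℕ) (x y : Fin (n + 2)) : lm m lev x y ≤ m := by
  classical
  refine Finset.sup_le fun j hj => ?_
  exact Nat.lt_succ_iff.1 (Finset.mem_range.1 (Finset.mem_filter.1 hj).1)

theorem con_lm (lev : Fin (n + 2) → ℕ) (x y : Fin (n + 2)) :
    Cn (fun a => lm m lev x y ≤ lev a) x y := by
  classical
  have h0 : Cn (fun a => 0 ≤ lev a) x y :=
    cn_mono (fun a _ => Nat.zero_le _) (conn 0 (by simp) x y)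
  have hne : ((Finset.range (m + 1)).filter
      (fun j => Cn (fun a => j ≤ lev a) x y)).Nonempty :=
    ⟨0, Finset.mem_filter.2 ⟨Finset.mem_range.2 (Nat.succ_pos m), h0⟩⟩
  obtain ⟨j, hj, he⟩ := Finset.exists_mem_eq_sup _ hne id
  have h1 : lm m lev x y = j := he
  rw [h1]
  exact (Finset.mem_filter.1 hj).2

theorem le_lm {lev : Fin (n + 2) → ℕ} {x y : Fin (n + 2)} {j : ℕ} (hj : j ≤ m)
    (h : Cn (fun a => j ≤ lev a) x y) : j ≤ lm m lev x y := by
  classical
  exact Finset.le_sup (f := id) (Finset.mem_filter.2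
      ⟨Finset.mem_range.2 (Nat.lt_succ_of_le hj), h⟩)

theorem plev_lm (lev : Fin (n + 2) → ℕ) : PLev m (lm m lev) where
  le := lm_le lev
  self := fun x => le_antisymm (lm_le lev x x) (le_lm le_rfl (Relation.EqvGen.refl _))
  sym := fun x y => le_antisymm
    (le_lm (lm_le lev x y) (Relation.EqvGen.symm _ _ (con_lm lev x y)))
    (le_lm (lm_le lev y x) (Relation.EqvGen.symm _ _ (con_lm lev y x)))
  ult := fun x y z => by
    refine le_lm (le_trans (min_le_left _ _) (lm_le lev x y)) ?_
    exact Relation.EqvGen.trans _ _ _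
      (cn_mono (fun a h => le_trans (min_le_left _ _) h) (con_lm lev x y))
      (cn_mono (fun a h => le_trans (min_le_right _ _) h) (con_lm lev y z))

theorem lm_edge {lev : Fin (n + 2) → ℕ} {k : Fin (n + 2)} (hk : lev k ≤ m)
    (h : ∃ k', k' ≠ k ∧ lev k' ≤ lev k) : lm m lev k (k + 1) = lev k := by
  obtain ⟨k', hne, hle⟩ := h
  refine le_antisymm ?_ (le_lm hk (Relation.EqvGen.rel _ _ ⟨le_rfl, rfl⟩))
  by_contra hlt
  rw [not_le] at hlt
  refine sepa (k := k) (k' := k') (Ne.symm hne) (cn_mono ?_ (con_lm (m := m) lev k (k + 1)))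
  intro a ha
  refine ⟨?_, ?_⟩
  · rintro rfl
    omega
  · rintro rfl
    omega

end cycle

section main

variable {V : Type} {ρ : Sig} {𝔹 : Str ρ V}

theorem tp_swap {a b c d : V} (h : tp 𝔹 ![a, b] = tp 𝔹 ![c, d]) : tp 𝔹 ![b, a] = tp 𝔹 ![d, c] := by
  have h1 := comp_of_tp h (fun i : Fin 2 => (![1, 0] : Fin 2 → Fin 2) i)
  have h2 : ∀ u v : V, (fun i : Fin 2 => (![u, v] : Fin 2 → V) ((![1, 0] : Fin 2 → Fin 2) i)) =
      ![v, u] := by
    intro u v
    funext i
    fin_cases i <;> rfl
  rw [h2, h2] at h1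
  exact h1

theorem pair_eta (u : Fin 2 → V) : ![u 0, u 1] = u := by
  funext i
  fin_cases i <;> rfl

/-- the types of the edges -/
noncomputable def pe {n : ℕ} (L : ℕ) (T S : Fin L → Fin 2 → V) (u : Fin 2 → V) (k : Fin (n + 2)) :
    Fin 2 → V :=
  if h : k.val / 2 < L then
    (if k.val % 2 = 0 then T ⟨k.val / 2, h⟩ else ![S ⟨k.val / 2, h⟩ 1, S ⟨k.val / 2, h⟩ 0])
  else ![u 1, u 0]

theorem pe_even {n : ℕ} {L : ℕ} (T S : Fin L → Fin 2 → V) (u : Fin 2 → V) (j : Fin L)
    (k : Fin (n + 2)) (h : k.val = 2 * j.val) : pe L T S u k = T j := by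
  unfold pe
  have h1 : k.val / 2 = j.val := by omega
  have h2 : k.val % 2 = 0 := by omega
  have hj := j.2
  rw [dif_pos (by omega), if_pos h2]
  congr 1
  exact Fin.ext h1

theorem pe_odd {n : ℕ} {L : ℕ} (T S : Fin L → Fin 2 → V) (u : Fin 2 → V) (j : Fin L)
    (k : Fin (n + 2)) (h : k.val = 2 * j.val + 1) : pe L T S u k = ![S j 1, S j 0] := by
  unfold pe
  have h1 : k.val / 2 = j.val := by omega
  have h2 : ¬ k.val % 2 = 0 := by omega
  have hj := j.2
  have h3 : k.val / 2 < L := by omega
  rw [dif_pos h3, if_neg h2]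
  have h4 : (⟨k.val / 2, h3⟩ : Fin L) = j := Fin.ext h1
  rw [h4]

theorem pe_last {n : ℕ} {L : ℕ} (T S : Fin L → Fin 2 → V) (u : Fin 2 → V)
    (k : Fin (n + 2)) (h : k.val = 2 * L) : pe L T S u k = ![u 1, u 0] := by
  unfold pe
  rw [dif_neg (by omega)]

theorem pf_PTH : T_PTH := by
  intro V ρ 𝔹 m lv hCYC hV hex
  obtain ⟨N, hN⟩ := hex
  refine ⟨N + 2, ?_⟩
  intro L hL τ ς T S u hT hS hu
  obtain ⟨n, hn⟩ : ∃ n, n + 2 = 2 * L + 1 := ⟨2 * L - 1, by omega⟩
  set p : Fin (n + 2) → Fin 2 → V := pe L T S u with hp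
  set lev : Fin (n + 2) → ℕ := fun k => lv (p k 0) (p k 1) with hlev
  have hlevm : ∀ k, lev k ≤ m := fun k => hV.lev.pl.le _ _
  have heven : ∀ (j : Fin L) (k : Fin (n + 2)), k.val = 2 * j.val → lev k = τ := by
    intro j k h
    rw [hlev, hp]
    simp only
    rw [pe_even T S u j k h]
    exact hT j
  have hodd : ∀ (j : Fin L) (k : Fin (n + 2)), k.val = 2 * j.val + 1 → lev k = ς := by
    intro j k h
    rw [hlev, hp]
    simp only
    rw [pe_odd T S u j k h, hV.lev.pl.sym]
    exact hS j
  have hlast : ∀ (k : Fin (n + 2)), k.val = 2 * L → lev k = lv (u 0) (u 1) := by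
    intro k h
    rw [hlev, hp]
    simp only
    rw [pe_last T S u k h, hV.lev.pl.sym]
    rfl
  have hmu : ∀ k, min τ ς ≤ lev k := by
    intro k
    have hk := k.2
    by_cases h1 : k.val = 2 * L
    · rw [hlast k h1]
      exact hu
    · have h2 : k.val / 2 < L := by omega
      rcases Nat.even_or_odd' k.val with ⟨c, hc | hc⟩
      · rw [heven ⟨k.val / 2, h2⟩ k (by simp only; omega)]
        exact min_le_left _ _
      · rw [hodd ⟨k.val / 2, h2⟩ k (by simp only; omega)]
        exact min_le_right _ _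
  -- the edges of the least level
  obtain ⟨e, he1, he2, he3⟩ : ∃ e : Fin L → Fin (n + 2), Injective e ∧
      (∀ j, lev (e j) = min τ ς) ∧ ∀ j, (e j).val < n + 1 := by
    by_cases h : τ ≤ ς
    · refine ⟨fun j => ⟨2 * j.val, by have := j.2; omega⟩, ?_, ?_, ?_⟩
      · intro a b hab
        have := congrArg Fin.val hab
        simp only at this
        exact Fin.ext (by omega)
      · intro j
        rw [min_eq_left h]
        exact heven j _ rfl
      · intro j
        have := j.2
        simp only
        omega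
    · refine ⟨fun j => ⟨2 * j.val + 1, by have := j.2; omega⟩, ?_, ?_, ?_⟩
      · intro a b hab
        have := congrArg Fin.val hab
        simp only at this
        exact Fin.ext (by omega)
      · intro j
        rw [min_eq_right (by omega)]
        exact hodd j _ rfl
      · intro j
        have := j.2
        simp only
        omega
  have hsmall : ∀ k, ∃ k', k' ≠ k ∧ lev k' ≤ lev k := by
    intro k
    by_cases h : k = e ⟨0, by omega⟩
    · refine ⟨e ⟨1, by omega⟩, ?_, ?_⟩
      · rw [h]
        intro h1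
        have := congrArg Fin.val (he1 h1)
        simp at this
      · rw [he2]
        exact hmu k
    · exact ⟨e ⟨0, by omega⟩, Ne.symm h, by rw [he2]; exact hmu k⟩
  obtain ⟨f, hf⟩ := hCYC V ρ 𝔹 m lv hV N hN n p (lm m lev) (plev_lm lev)
    (fun k => lm_edge (hlevm k) (hsmall k)) (by
      intro U hU
      -- an edge of least level which is not in `U`
      obtain ⟨j, hj⟩ : ∃ j : Fin L, ¬ (e j ∈ U ∧ e j + 1 ∈ U) := by
        by_contra hcon
        push Not at hcon
        classical
        have h1 : (Finset.univ.image e) ⊆ U := by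
          intro x hx
          obtain ⟨j, -, rfl⟩ := Finset.mem_image.1 hx
          exact (hcon j).1
        have h2 := Finset.card_le_card h1
        rw [Finset.card_image_of_injective _ he1, Finset.card_univ, Fintype.card_fin] at h2
        omega
      refine ⟨e j, hj, ?_⟩
      intro x y
      by_cases h : lm m lev x y ≤ min τ ς
      · refine Relation.EqvGen.mono ?_ _ _ (conn (e j) (he3 j) x y)
        rintro a b ⟨h1, rfl⟩
        refine ⟨h1, rfl, ?_⟩
        rw [lm_edge (hlevm a) (hsmall a)]
        exact h.trans (hmu a)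
      · refine Relation.EqvGen.mono ?_ _ _ (con_lm (m := m) lev x y)
        rintro a b ⟨h1, rfl⟩
        refine ⟨?_, rfl, ?_⟩
        · rintro rfl
          rw [he2] at h1
          exact h h1
        · rw [lm_edge (hlevm a) (hsmall a)]
          exact h1)
  -- the ends
  have hzl : (⟨2 * L, by omega⟩ : Fin (n + 2)) + 1 = 0 := last_succ (by simp only; omega)
  have hne : (0 : Fin (n + 2)) ≠ ⟨2 * L, by omega⟩ := by
    intro h
    have := congrArg Fin.val h
    simp at this
    omega
  have hcl := hf ⟨2 * L, by omega⟩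
  rw [hzl, hp, pe_last T S u _ rfl] at hcl
  have hcl2 := tp_swap hcl
  rw [pair_eta] at hcl2
  obtain ⟨f', hf'1, hf'2⟩ := hV.hmg (Fin (n + 2)) {0, ⟨2 * L, by omega⟩} f
    (fun k => if k = 0 then u 0 else u 1) (by
      have h1 : ∀ k : Fin (n + 2), k ∈ ({0, ⟨2 * L, by omega⟩} : Set (Fin (n + 2))) →
          ∃ i : Fin 2, f k = (![f 0, f ⟨2 * L, by omega⟩] : Fin 2 → V) i ∧
            (if k = 0 then u 0 else u 1) = u i := by
        intro k hk
        rcases hk with rfl | hk
        · exact ⟨0, rfl, by simp⟩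
        · have hk' : k = ⟨2 * L, by omega⟩ := hk
          rw [hk']
          exact ⟨1, rfl, by rw [if_neg (Ne.symm hne)]⟩
      constructor
      · intro a ha b hb
        obtain ⟨i, h2, h3⟩ := h1 a ha
        obtain ⟨i', h4, h5⟩ := h1 b hb
        rw [h2, h4]
        simp only [h3, h5]
        exact (tpo_of_tp hcl2 Set.univ).1 i (Set.mem_univ _) i' (Set.mem_univ _)
      · intro l z hz
        choose w hw1 hw2 using fun i => h1 (z i) (hz i)
        have h2 : (fun i => f (z i)) = fun i => (![f 0, f ⟨2 * L, by omega⟩] : Fin 2 → V) (w i) :=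
          funext hw1
        have h3 : (fun i => (if z i = 0 then u 0 else u 1)) = fun i => u (w i) := funext hw2
        rw [h2]
        simp only [h3]
        exact (tpo_of_tp hcl2 Set.univ).2 l w fun _ => Set.mem_univ _)
  have hedge : ∀ k, tp 𝔹 ![f' k, f' (k + 1)] = tp 𝔹 (p k) := by
    intro k
    rw [← hf k]
    have h1 := comp_of_tp hf'1 (fun i : Fin 2 => (![k, k + 1] : Fin 2 → Fin (n + 2)) i)
    have h2 : ∀ g : Fin (n + 2) → V, (fun i : Fin 2 => g ((![k, k + 1] : Fin 2 → Fin (n + 2)) i)) =
        ![g k, g (k + 1)] := by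
      intro g
      funext i
      fin_cases i <;> rfl
    rw [h2, h2] at h1
    exact h1
  refine ⟨fun k => f' ⟨2 * k.val, by have := k.2; omega⟩,
    fun k => f' ⟨2 * k.val + 1, by have := k.2; omega⟩, ?_, ?_, ?_⟩
  · have h1 := hf'2 0 (Or.inl rfl)
    rw [if_pos rfl] at h1
    exact h1
  · have h1 := hf'2 ⟨2 * L, by omega⟩ (Or.inr rfl)
    rw [if_neg (Ne.symm hne)] at h1
    exact h1
  · intro k
    have hk := k.2
    constructor
    · have h1 := hedge ⟨2 * k.val, by omega⟩
      rw [hp, pe_even T S u k _ rfl] at h1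
      have h2 : (⟨2 * k.val, by omega⟩ : Fin (n + 2)) + 1 = ⟨2 * k.val + 1, by omega⟩ := by
        apply Fin.ext
        rw [val_succ (by simp only; omega)]
      rw [h2] at h1
      exact h1
    · have h1 := hedge ⟨2 * k.val + 1, by omega⟩
      rw [hp, pe_odd T S u k _ rfl] at h1
      have h2 : (⟨2 * k.val + 1, by omega⟩ : Fin (n + 2)) + 1 = ⟨2 * (k.val + 1), by omega⟩ := by
        apply Fin.ext
        rw [val_succ (by simp only; omega)]
        simp only
        omega
      rw [h2] at h1
      have h3 := tp_swap h1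
      rw [pair_eta] at h3
      exact h3

end main

end Pool.Agent.H51.CH
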