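import Pool.Agent.H32.CH.Targets

/-!
# CH board, row W3: windows for cycles of length 6 m + 3
-/

namespace Pool.Agent.H51.CH

open Finset
open scoped Classical
open Pool.Agent.H32.CH

/-- consecutive windows and the choice of one point in each of them -/
theorem pick (n k : ℕ) (hn : 3 * k ≤ n) :
    CW n k (fun i : Fin k => ({3 * i.1, 3 * i.1 + 1, 3 * i.1 + 2} : Finset ℕ)) ∧
    ∀ r : Finset ℕ, (∀ i : Fin k, (r ∩ ({3 * i.1, 3 * i.1 + 1, 3 * i.1 + 2} : Finset ℕ)).card = 1) →
      ∃ P : ℕ → ℕ, ∀ i < k, P i ∈ r ∧ 3 * i ≤ P i ∧ P i ≤ 3 * i + 2 := by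
  refine ⟨⟨?_, ?_, ?_⟩, ?_⟩
  · intro i
    simp
  · intro i x hx
    have := i.2
    simp only [mem_insert, mem_singleton] at hx
    rw [mem_range]
    omega
  · intro i j hij
    rw [disjoint_left]
    intro x hx hx'
    simp only [mem_insert, mem_singleton] at hx hx'
    apply hij
    ext
    omega
  · intro r hr
    have h : ∀ i : ℕ, ∃ x, i < k → x ∈ r ∧ 3 * i ≤ x ∧ x ≤ 3 * i + 2 := by
      intro i
      by_cases hi : i < k
      · have hpos : 0 < (r ∩ ({3 * i, 3 * i + 1, 3 * i + 2} : Finset ℕ)).card := by
          rw [hr ⟨i, hi⟩]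
          exact one_pos
        obtain ⟨x, hx⟩ := card_pos.1 hpos
        refine ⟨x, fun _ => ?_⟩
        simp only [mem_inter, mem_insert, mem_singleton] at hx
        refine ⟨hx.1, ?_, ?_⟩ <;> omega
      · exact ⟨0, fun h => absurd h hi⟩
    choose P hP using h
    exact ⟨P, hP⟩

theorem pf_W3 (h : T_COR) : T_W3 := by
  intro m hm
  obtain ⟨hCW, hpick⟩ := pick (6 * m + 3) (2 * m + 1) (by omega)
  refine ⟨2 * m + 1, _, hCW, ?_⟩
  intro r _ hr _
  obtain ⟨P, hP⟩ := hpick r hr
  have hsub : (range (2 * m + 1)).image P ⊆ r := by
    intro x hx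
    obtain ⟨i, hi, rfl⟩ := mem_image.1 hx
    exact (hP i (mem_range.1 hi)).1
  have h0 := hP 0 (by omega)
  have h1 := hP 1 (by omega)
  have h2 := hP 2 (by omega)
  have hl := hP (2 * m) (by omega)
  have hl' := hP (2 * m - 1) (by omega)
  have e1 : 2 * m + 1 - 1 = 2 * m := by omega
  have e2 : 2 * m + 1 - 2 = 2 * m - 1 := by omega
  by_cases hc : P 1 = P 0 + 1
  · obtain ⟨s, hs, hs'⟩ := h (6 * m + 3) (2 * m + 1) P (fun i => i = 0 ∨ (i % 2 = 1 ∧ 3 ≤ i))
      (by omega)
      (by
        intro i hi
        have := hP i hi
        omega)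
      (by
        intro i hi
        have := hP i (by omega)
        have := hP (i + 1) hi
        omega)
      (by rw [e1]; omega)
      (by
        intro i hi hO
        omega)
      (by rw [e1]; omega)
      (by
        intro i hi hE
        have := hP i (by omega)
        have := hP (i + 1) hi
        by_cases hi0 : i = 0
        · left; left; exact hi0
        · by_cases hi1 : i = 1
          · subst hi1
            simp only [Nat.reduceAdd] at hE
            omega
          · omega)
      (by intro _; right; left; rfl)
      (by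
        intro i hi hO hE
        have := hP i (by omega)
        have := hP (i + 1) (by omega)
        have := hP (i + 2) hi
        omega)
      (by rw [e1]; omega)
      (by rw [e1]; omega)
    exact ⟨s, hs.trans hsub, hs'⟩
  · obtain ⟨s, hs, hs'⟩ := h (6 * m + 3) (2 * m + 1) P (fun i => i % 2 = 0 ∧ 2 ≤ i)
      (by omega)
      (by
        intro i hi
        have := hP i hi
        omega)
      (by
        intro i hi
        have := hP i (by omega)
        have := hP (i + 1) hi
        omega)
      (by rw [e1]; omega)
      (by
        intro i hi hO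
        omega)
      (by rw [e1]; omega)
      (by
        intro i hi hE
        by_cases hi0 : i = 0
        · subst hi0
          exact absurd hE hc
        · omega)
      (by rw [e1]; intro _; left; omega)
      (by
        intro i hi hO hE
        have := hP i (by omega)
        have := hP (i + 1) (by omega)
        have := hP (i + 2) hi
        omega)
      (by
        intro hO
        omega)
      (by
        rw [e1, e2]
        intro hO hE
        omega)
    exact ⟨s, hs.trans hsub, hs'⟩

end Pool.Agent.H51.CH
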